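import Pool.Agent.Lib.MP_33952e_nt_P.Final

/-!
# The critical density in the Pisier type problem for B₂ sets is 3/4

The set `B` consists of the integers `[v w] - [u w] + [u v]` attached to the triples `u < v < w` of
a 3-graph, `[a b]` being a power of ten for each pair `a < b`.  Its only coincidences of sums of two
elements are given by the faces of tetrahedra of the 3-graph.  The triples carry labels, increasing
`q`-tuples of integers, such that the four faces of each tetrahedron carry four consecutive
windows.  Such a 3-graph in which every colouring of the triples has a monochromatic tetrahedron is
obtained by a partite construction from the Hales-Jewett theorem.  To find a large `B₂` set in a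
finite subset one takes a random injection and drops the triples for which the minimum on the label
is at a position divisible by four (or near the ends).
-/

set_option autoImplicit false

namespace Pool.Agent.Results.MP_33952e_nt.CriticalDensity

open Pool.Agent.MP_33952e_nt.P

/-- (1) For every real `δ < 3 / 4` there is an infinite set `B` of natural numbers with property
`P(δ)`, that is, every finite `A ⊆ B` contains a `B₂` set with at least `δ |A|` elements, which is
not contained in a union of finitely many `B₂` sets.  (2) A set with property `P(δ)` for some
`δ > 3 / 4` is a `B₂` set. -/
theorem result :
    (∀ δ : ℝ, δ < 3 / 4 → ∃ B : Set ℕ, B.Infinite ∧ PropertyP δ B ∧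
      ∀ (C : ℕ) (P : Fin C → Set ℕ), (∀ i, IsSidon (P i)) → ¬ B ⊆ ⋃ i, P i) ∧
    (∀ δ : ℝ, 3 / 4 < δ → ∀ B : Set ℕ, PropertyP δ B → IsSidon B) :=
  ⟨fun _ h => below h, fun _ h _ hB => above h hB⟩

end Pool.Agent.Results.MP_33952e_nt.CriticalDensity
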